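import Pool.Agent.H28.Ramsey.Main

/-!
# Ramsey numbers are log-Lipschitz away from the axes

For every `ε > 0` there is a constant `C` such that `R(k+1,l+1) ≤ C R(k,l)` for all `k, l ≥ 1` with
`ε k ≤ l` and `ε l ≤ k`.
-/

namespace Pool.Agent.H28.Kept.BoundedRatio

open Filter Topology

/-- The Ramsey number `R(k,l)`: the least positive integer `n` such that for every simple graph
`G` on `n` vertices (red = edges of `G`, blue = edges of the complement) there is a red clique of
size `k` or a blue clique of size `l`. -/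
noncomputable def ramsey (k l : ℕ) : ℕ :=
  sInf {n | 0 < n ∧ ∀ G : SimpleGraph (Fin n),
    (∃ S : Finset (Fin n), G.IsNClique k S) ∨ (∃ S : Finset (Fin n), Gᶜ.IsNClique l S)}

theorem ramsey_eq : ramsey = Pool.Agent.H28.Ramsey.ramsey := rfl

/-- Sanity check: the set in the definition of `R(k,l)` is nonempty, so `R(k,l)` is its least
element. -/
theorem ramsey_spec (k l : ℕ) : 0 < ramsey k l ∧ ∀ G : SimpleGraph (Fin (ramsey k l)),
    (∃ S : Finset (Fin (ramsey k l)), G.IsNClique k S) ∨
      (∃ S : Finset (Fin (ramsey k l)), Gᶜ.IsNClique l S) :=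
  Pool.Agent.H28.Ramsey.ramsey_spec k l

/-- **Main theorem.** `R(k+1,l+1) ≤ C R(k,l)` with `C` depending only on `ε`, whenever
`ε ≤ l / k ≤ 1 / ε`. -/
theorem result : ∀ ε : ℝ, 0 < ε → ∃ C : ℝ, ∀ k l : ℕ, 1 ≤ k → 1 ≤ l →
    ε * k ≤ l → ε * l ≤ k → (ramsey (k + 1) (l + 1) : ℝ) ≤ C * ramsey k l := by
  rw [ramsey_eq]
  exact Pool.Agent.H28.Ramsey.main

/-- The diagonal case: consecutive diagonal Ramsey numbers have bounded ratio. -/
theorem diagonal : ∃ C : ℝ, ∀ k : ℕ, 1 ≤ k →
    (ramsey (k + 1) (k + 1) : ℝ) ≤ C * ramsey k k := by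
  obtain ⟨C, hC⟩ := result 1 one_pos
  exact ⟨C, fun k hk => hC k k hk hk (by simp) (by simp)⟩

theorem ramsey_mono {k k' l l' : ℕ} (hk : k ≤ k') (hl : l ≤ l') : ramsey k l ≤ ramsey k' l' := by
  rw [ramsey_eq]
  apply Nat.sInf_le
  refine ⟨Pool.Agent.H28.Ramsey.ramsey_pos k' l', fun G => ?_⟩
  rcases (Pool.Agent.H28.Ramsey.ramsey_spec k' l').2 G with ⟨S, hS⟩ | ⟨S, hS⟩
  · left
    obtain ⟨T, hT, hc⟩ := Finset.exists_subset_card_eq (s := S) (n := k)
      (by rw [hS.card_eq]; omega)
    exact ⟨T, ⟨hS.isClique.subset (by exact_mod_cast hT), hc⟩⟩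
  · right
    obtain ⟨T, hT, hc⟩ := Finset.exists_subset_card_eq (s := S) (n := l)
      (by rw [hS.card_eq]; omega)
    exact ⟨T, ⟨hS.isClique.subset (by exact_mod_cast hT), hc⟩⟩

/-- A constant-factor form of the diagonal conjecture `R(k-1,k+1) ≤ R(k,k)`. -/
theorem off_diagonal : ∃ C : ℝ, ∀ k : ℕ, 1 ≤ k →
    (ramsey (k - 1) (k + 1) : ℝ) ≤ C * ramsey k k := by
  obtain ⟨C, hC⟩ := diagonal
  refine ⟨C, fun k hk => le_trans ?_ (hC k hk)⟩
  exact_mod_cast ramsey_mono (by omega) le_rfl

theorem iterate : ∃ C : ℝ, 1 ≤ C ∧ ∀ k t : ℕ, 1 ≤ k →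
    (ramsey (k + t) (k + t) : ℝ) ≤ C ^ t * ramsey k k := by
  obtain ⟨C, hC⟩ := diagonal
  refine ⟨max C 1, le_max_right _ _, fun k t hk => ?_⟩
  induction t with
  | zero => simp
  | succ t ih =>
    calc (ramsey (k + (t + 1)) (k + (t + 1)) : ℝ)
        ≤ C * ramsey (k + t) (k + t) := hC (k + t) (by omega)
      _ ≤ max C 1 * ramsey (k + t) (k + t) :=
          mul_le_mul_of_nonneg_right (le_max_left _ _) (Nat.cast_nonneg _)
      _ ≤ max C 1 * (max C 1 ^ t * ramsey k k) := by
          apply mul_le_mul_of_nonneg_left ih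
          positivity
      _ = max C 1 ^ (t + 1) * ramsey k k := by ring

/-- If `l k / k → 1` then `log R(k, l k) = log R(k,k) + o(k)`: in the question on the growth rate
the diagonal can be replaced by any sequence asymptotic to the diagonal. -/
theorem near_diagonal (l : ℕ → ℕ) (hl : Tendsto (fun k : ℕ => (l k : ℝ) / k) atTop (𝓝 1)) :
    Tendsto (fun k : ℕ => Real.log (ramsey k (l k)) / k - Real.log (ramsey k k) / k)
      atTop (𝓝 0) := by
  obtain ⟨C, hC1, hC⟩ := iterate
  have hlogC : 0 ≤ Real.log C := Real.log_nonneg hC1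
  have hpos : ∀ a b, (0 : ℝ) < ramsey a b := fun a b => by
    exact_mod_cast (ramsey_spec a b).1
  -- key estimate
  have key : ∀ k : ℕ, 1 ≤ k → 1 ≤ l k →
      |Real.log (ramsey k (l k)) - Real.log (ramsey k k)| ≤ Real.log C * |(l k : ℝ) - k| := by
    intro k hk hlk
    rcases Nat.le_total k (l k) with h | h
    · obtain ⟨t, ht⟩ := Nat.exists_eq_add_of_le h
      have h1 : (ramsey k k : ℝ) ≤ ramsey k (l k) := by exact_mod_cast ramsey_mono le_rfl h
      have h2 : (ramsey k (l k) : ℝ) ≤ C ^ t * ramsey k k := by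
        refine le_trans ?_ (hC k t hk)
        exact_mod_cast ramsey_mono (by omega) (by omega)
      have h3 := Real.log_le_log (hpos _ _) h1
      have h4 := Real.log_le_log (hpos _ _) h2
      rw [Real.log_mul (by positivity) (hpos _ _).ne', Real.log_pow] at h4
      have h6 : (l k : ℝ) - k = t := by
        have h5 : (l k : ℝ) = k + t := by exact_mod_cast ht
        rw [h5]; ring
      rw [abs_of_nonneg (by linarith), h6, abs_of_nonneg (Nat.cast_nonneg t)]
      linarith
    · obtain ⟨t, ht⟩ := Nat.exists_eq_add_of_le h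
      have h1 : (ramsey k (l k) : ℝ) ≤ ramsey k k := by exact_mod_cast ramsey_mono le_rfl h
      have h2 : (ramsey k k : ℝ) ≤ C ^ t * ramsey k (l k) := by
        calc (ramsey k k : ℝ) = ramsey (l k + t) (l k + t) := by rw [← ht]
          _ ≤ C ^ t * ramsey (l k) (l k) := hC (l k) t hlk
          _ ≤ C ^ t * ramsey k (l k) := by
              apply mul_le_mul_of_nonneg_left _ (by positivity)
              exact_mod_cast ramsey_mono h le_rfl
      have h3 := Real.log_le_log (hpos _ _) h1
      have h4 := Real.log_le_log (hpos _ _) h2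
      rw [Real.log_mul (by positivity) (hpos _ _).ne', Real.log_pow] at h4
      have h5 : (k : ℝ) = l k + t := by exact_mod_cast ht
      rw [abs_of_nonpos (by linarith), abs_of_nonpos (by rw [h5]; linarith [Nat.cast_nonneg (α := ℝ) t])]
      have h6 : -((l k : ℝ) - k) = t := by rw [h5]; ring
      rw [h6]
      linarith
  have hev : ∀ᶠ k : ℕ in atTop,
      |Real.log (ramsey k (l k)) / k - Real.log (ramsey k k) / k| ≤
        Real.log C * |(l k : ℝ) / k - 1| := by
    have h1 : ∀ᶠ k : ℕ in atTop, (1 / 2 : ℝ) < (l k : ℝ) / k :=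
      hl.eventually (lt_mem_nhds (by norm_num))
    filter_upwards [h1, eventually_ge_atTop 1] with k hk1 hk
    have hkr : (0 : ℝ) < k := by exact_mod_cast hk
    have hlk : 1 ≤ l k := by
      by_contra hcon
      have : l k = 0 := by omega
      rw [this] at hk1
      norm_num at hk1
    have h2 := key k hk hlk
    rw [← sub_div, abs_div, abs_of_pos hkr, div_le_iff₀ hkr]
    have h3 : |(l k : ℝ) / k - 1| * k = |(l k : ℝ) - k| := by
      rw [← abs_of_pos hkr, ← abs_mul, abs_of_pos hkr]
      congr 1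
      field_simp
    rw [mul_assoc, h3]
    exact h2
  have hlim : Tendsto (fun k : ℕ => Real.log C * |(l k : ℝ) / k - 1|) atTop (𝓝 0) := by
    have := ((hl.sub_const 1).abs).const_mul (Real.log C)
    simpa using this
  exact squeeze_zero_norm' (by simpa [Real.norm_eq_abs] using hev) hlim

end Pool.Agent.H28.Kept.BoundedRatio
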